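import Pool.Agent.H94.LP1.M03

/-!
# Module VDim (UB): the general dimension as a function
-/

namespace Pool.Agent.H18.Fat

/-- The dimension of `V_d(Γ)` for general points, that is, the smallest dimension. -/
noncomputable def generalDim (r d : ℕ) {k : ℕ} (m : Fin k → ℕ) : ℕ :=
  sInf {x : ℕ | ∃ p : Fin k → Fin (r + 1) → ℂ, Module.finrank ℂ (fatForms r d p m) = x}

end Pool.Agent.H18.Fat

namespace Pool.Agent.H18.Ub

open Finset Pool.Agent.H18.Fat

/-- Sanity check: the dimension of `V_d(Γ)` for general points. -/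
theorem generalDim_spec (r d : ℕ) {k : ℕ} (m : Fin k → ℕ) :
    ForGeneralPoints r k fun p => Module.finrank ℂ (fatForms r d p m) = generalDim r d m := by
  have hne : {x : ℕ | ∃ p : Fin k → Fin (r + 1) → ℂ,
      Module.finrank ℂ (fatForms r d p m) = x}.Nonempty := ⟨_, fun _ _ => 0, rfl⟩
  obtain ⟨p₀, hp₀⟩ := Nat.sInf_mem hne
  refine (general_finrank_le d p₀ m).mono fun p hp => le_antisymm ?_ ?_
  · rw [hp₀] at hp
    exact hp
  · exact Nat.sInf_le ⟨p, rfl⟩

end Pool.Agent.H18.Ub
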